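import Mathlib
import Pool.Agent.U753.MK.Stm
import Pool.Agent.TH235.PQ.Ops

/-!
# Project MK, package TE: the embedding of box operators into the torus
-/

set_option autoImplicit false
set_option linter.unusedSectionVars false

open scoped BigOperators Matrix ComplexOrder Kronecker
open scoped Matrix.Norms.L2Operator

noncomputable section

namespace Pool.Agent.U337.MK

open Pool.Agent.TH235.PP (BoxOp TorOp Site term ham sh)
open Pool.Agent.U753.MK

section gen

variable {V B : Type} [Fintype V] [DecidableEq V] [Fintype B] [DecidableEq B] {d : ℕ}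

/-- configurations: inside and outside of the range of `f` -/
def split (f : B → V) (hf : Function.Injective f) :
    (V → Fin d) ≃ (B → Fin d) × ({v // ¬ v ∈ Set.range f} → Fin d) where
  toFun s := (s ∘ f, fun o => s o.1)
  invFun p := fun v => by
    classical
    exact if h : v ∈ Set.range f then p.1 h.choose else p.2 ⟨v, h⟩
  left_inv s := by
    funext v
    by_cases h : v ∈ Set.range f
    · simp only [h, dif_pos, Function.comp_apply]
      rw [h.choose_spec]
    · simp only [h, dif_neg, not_false_eq_true]
  right_inv p := by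
    ext1
    · funext x
      have h : f x ∈ Set.range f := ⟨x, rfl⟩
      have : h.choose = x := hf h.choose_spec
      simp only [Function.comp_apply, h, dif_pos, this]
    · funext o
      have h := o.2
      simp only [h, dif_neg, not_false_eq_true]

@[simp] lemma split_fst (f : B → V) (hf : Function.Injective f) (s : V → Fin d) :
    (split f hf s).1 = s ∘ f := rfl

@[simp] lemma split_snd (f : B → V) (hf : Function.Injective f) (s : V → Fin d) :
    (split f hf s).2 = fun o => s o.1 := rfl

open Classical in
/-- the embedding of operators -/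
def emb (f : B → V) (X : Matrix (B → Fin d) (B → Fin d) ℂ) : Matrix (V → Fin d) (V → Fin d) ℂ :=
  fun s t => if ∀ v, (∀ x, f x ≠ v) → s v = t v then X (fun x => s (f x)) (fun x => t (f x)) else 0

lemma emb_eq (f : B → V) (hf : Function.Injective f) (X : Matrix (B → Fin d) (B → Fin d) ℂ) :
    emb f X = (X ⊗ₖ (1 : Matrix ({v // ¬ v ∈ Set.range f} → Fin d)
      ({v // ¬ v ∈ Set.range f} → Fin d) ℂ)).submatrix (split f hf) (split f hf) := by
  classical
  ext s t
  rw [Matrix.submatrix_apply, Matrix.kroneckerMap_apply, Matrix.one_apply]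
  unfold emb
  by_cases h : ∀ v, (∀ x, f x ≠ v) → s v = t v
  · have h2 : (split f hf s).2 = (split f hf t).2 := by
      funext o
      exact h o.1 (fun x hx => o.2 ⟨x, hx⟩)
    rw [if_pos h, if_pos h2, mul_one]
    rfl
  · have h2 : ¬ (split f hf s).2 = (split f hf t).2 := by
      intro h'
      apply h
      intro v hv
      exact congrFun h' ⟨v, fun ⟨x, hx⟩ => hv x hx⟩
    rw [if_neg h, if_neg h2, mul_zero]

lemma emb_mul (f : B → V) (hf : Function.Injective f) (X Y : Matrix (B → Fin d) (B → Fin d) ℂ) :
    emb f (X * Y) = emb f X * emb f Y := by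
  rw [emb_eq f hf, emb_eq f hf, emb_eq f hf, Matrix.submatrix_mul_equiv, ← Matrix.mul_kronecker_mul,
    mul_one]

lemma emb_one (f : B → V) (hf : Function.Injective f) :
    emb f (1 : Matrix (B → Fin d) (B → Fin d) ℂ) = 1 := by
  rw [emb_eq f hf, Matrix.one_kronecker_one, Matrix.submatrix_one_equiv]

lemma emb_star (f : B → V) (hf : Function.Injective f) (X : Matrix (B → Fin d) (B → Fin d) ℂ) :
    emb f Xᴴ = (emb f X)ᴴ := by
  rw [emb_eq f hf, emb_eq f hf, Matrix.conjTranspose_submatrix, Matrix.conjTranspose_kronecker,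
    Matrix.conjTranspose_one]

lemma emb_add (f : B → V) (X Y : Matrix (B → Fin d) (B → Fin d) ℂ) :
    emb f (X + Y) = emb f X + emb f Y := by
  classical
  ext s t
  simp only [emb, Matrix.add_apply]
  split_ifs <;> simp

lemma emb_smul (f : B → V) (c : ℂ) (X : Matrix (B → Fin d) (B → Fin d) ℂ) :
    emb f (c • X) = c • emb f X := by
  classical
  ext s t
  simp only [emb, Matrix.smul_apply]
  split_ifs <;> simp

/-- the embedding as a star homomorphism -/
def embHom (f : B → V) (hf : Function.Injective f) :
    Matrix (B → Fin d) (B → Fin d) ℂ →⋆ₐ[ℂ] Matrix (V → Fin d) (V → Fin d) ℂ where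
  toFun := emb f
  map_one' := emb_one f hf
  map_mul' := emb_mul f hf
  map_zero' := by
    have := emb_smul (d := d) f 0 0
    simpa using this
  map_add' := emb_add f
  commutes' := by
    intro r
    rw [Algebra.algebraMap_eq_smul_one, Algebra.algebraMap_eq_smul_one, emb_smul, emb_one f hf]
  map_star' := by
    intro X
    rw [Matrix.star_eq_conjTranspose, Matrix.star_eq_conjTranspose]
    exact emb_star f hf X

lemma emb_norm (f : B → V) (hf : Function.Injective f) (X : Matrix (B → Fin d) (B → Fin d) ℂ) :
    ‖emb f X‖ ≤ ‖X‖ :=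
  NonUnitalStarAlgHom.norm_apply_le (embHom f hf) X

lemma emb_exp (f : B → V) (hf : Function.Injective f) (X : Matrix (B → Fin d) (B → Fin d) ℂ) :
    NormedSpace.exp (emb f X) = emb f (NormedSpace.exp X) := by
  have hc : Continuous (embHom (d := d) f hf) :=
    AddMonoidHomClass.continuous_of_bound (embHom (d := d) f hf) 1
      (fun x => by rw [one_mul]; exact emb_norm f hf x)
  have hX : X ∈ Metric.eball (0 : Matrix (B → Fin d) (B → Fin d) ℂ)
      (NormedSpace.expSeries ℂ (Matrix (B → Fin d) (B → Fin d) ℂ)).radius := by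
    rw [NormedSpace.expSeries_radius_eq_top]
    exact edist_lt_top _ _
  exact (NormedSpace.map_exp_of_mem_ball (𝕂 := ℂ) (embHom (d := d) f hf) hc X hX).symm

lemma emb_posDef (f : B → V) (hf : Function.Injective f) (X : Matrix (B → Fin d) (B → Fin d) ℂ)
    (hX : X.PosDef) : (emb f X).PosDef := by
  rw [emb_eq f hf]
  exact (hX.kronecker Matrix.PosDef.one).submatrix (split f hf).injective

lemma sum_comp (f : B → V) (hf : Function.Injective f) (F : (B → Fin d) → ℂ) :
    ∑ w : V → Fin d, F (w ∘ f) =
      (d : ℂ) ^ (Fintype.card V - Fintype.card B) * ∑ w : B → Fin d, F w := by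
  classical
  rw [Fintype.sum_equiv (split f hf) (fun w => F (w ∘ f))
    (fun p : (B → Fin d) × ({v // ¬ v ∈ Set.range f} → Fin d) => F p.1) (fun w => rfl),
    Fintype.sum_prod_type_right]
  change ∑ _y : ({v // ¬ v ∈ Set.range f} → Fin d), ∑ x : B → Fin d, F x = _
  rw [Finset.sum_const, nsmul_eq_mul, Finset.card_univ, Fintype.card_fun, Fintype.card_fin,
    Fintype.card_subtype_compl]
  congr 2
  · have h : Fintype.card {v // v ∈ Set.range f} = Fintype.card B :=
      (Fintype.card_congr (Equiv.ofInjective f hf)).symm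
    rw [Nat.cast_pow]
    congr 2

lemma emb_cexp (f : B → V) (hf : Function.Injective f) (hd : 0 < d) (A : Finset B)
    (X : Matrix (B → Fin d) (B → Fin d) ℂ) :
    cexp (A.image f) (emb f X) = emb f (cexp A X) := by
  classical
  ext s t
  have hmix : ∀ s w : V → Fin d, (fun x => mix (A.image f) s w (f x)) =
      mix A (s ∘ f) (w ∘ f) := by
    intro s w
    funext x
    unfold mix
    by_cases hx : x ∈ A
    · rw [if_pos hx, if_pos (Finset.mem_image_of_mem f hx)]
      rfl
    · rw [if_neg hx, if_neg]
      · rfl
      · intro h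
        obtain ⟨y, hy, hyx⟩ := Finset.mem_image.1 h
        exact hx (hf hyx ▸ hy)
  have hterm : ∀ w : V → Fin d, emb f X (mix (A.image f) s w) (mix (A.image f) t w) =
      X (mix A (s ∘ f) (w ∘ f)) (mix A (t ∘ f) (w ∘ f)) := by
    intro w
    unfold emb
    rw [if_pos, hmix, hmix]
    intro v hv
    unfold mix
    have : v ∉ A.image f := by
      intro h
      obtain ⟨y, _, hyx⟩ := Finset.mem_image.1 h
      exact hv y hyx
    rw [if_neg this, if_neg this]
  have hcard : Fintype.card B ≤ Fintype.card V := Fintype.card_le_of_injective f hf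
  have hd' : (d : ℂ) ≠ 0 := by exact_mod_cast hd.ne'
  have hpow : ((d : ℂ) ^ Fintype.card V)⁻¹ * (d : ℂ) ^ (Fintype.card V - Fintype.card B) =
      ((d : ℂ) ^ Fintype.card B)⁻¹ := by
    rw [pow_sub₀ _ hd' hcard]
    field_simp
  unfold cexp
  simp only [Matrix.of_apply]
  simp only [hterm]
  rw [sum_comp f hf (fun w => X (mix A (s ∘ f) w) (mix A (t ∘ f) w)), ← mul_assoc, hpow]
  unfold emb
  simp only [Matrix.of_apply]
  by_cases h1 : ∀ v, v ∉ A.image f → s v = t v
  · rw [if_pos h1, if_pos, if_pos]
    · rfl
    · intro x hx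
      apply h1
      intro h
      obtain ⟨y, hy, hyx⟩ := Finset.mem_image.1 h
      exact hx (hf hyx ▸ hy)
    · intro v hv
      apply h1
      intro h
      obtain ⟨y, _, hyx⟩ := Finset.mem_image.1 h
      exact hv y hyx
  · rw [if_neg h1]
    by_cases h2 : ∀ v, (∀ x, f x ≠ v) → s v = t v
    · rw [if_pos h2, if_neg]
      intro h3
      apply h1
      intro v hv
      by_cases hvr : ∃ x, f x = v
      · obtain ⟨x, rfl⟩ := hvr
        exact h3 x (fun hx => hv (Finset.mem_image_of_mem f hx))
      · push Not at hvr
        exact h2 v hvr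
    · rw [if_neg h2]

end gen

/-- Package TE. -/
theorem t_term : StmTerm := by
  intro d R L _ hd hRL u
  have hinj : Function.Injective (sh u : Fin R × Fin R → Site L) :=
    Pool.Agent.TH235.PQ.sh_inj hRL u
  have hterm : ∀ X : BoxOp d R, term X u = emb (sh u) X := by
    intro X
    ext s t
    unfold term emb
    split_ifs <;> rfl
  refine ⟨?_, ?_, ?_, ?_, ?_, ?_⟩
  · intro X Y
    rw [hterm, hterm, hterm]
    exact emb_mul _ hinj X Y
  · rw [hterm]
    exact emb_one _ hinj
  · intro X
    rw [hterm]
    exact emb_norm _ hinj X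
  · intro X
    rw [hterm, hterm]
    exact emb_exp _ hinj X
  · intro X hX
    rw [hterm]
    exact emb_posDef _ hinj X hX
  · intro A X
    rw [hterm, hterm]
    have := emb_cexp (sh u : Fin R × Fin R → Site L) hinj hd A X
    convert this using 2

end Pool.Agent.U337.MK
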